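import Mathlib

set_option autoImplicit false

namespace Pool.Agent.Results.MP_51bcab_lc.NotMinimalGen

/-- the submonoid `X*` generated by `X`, as a set of words -/
def star {A : Type} (X : Set (List A)) : Set (List A) :=
  {w | ∃ l : List (List A), (∀ x ∈ l, x ∈ X) ∧ l.flatten = w}

/-- the set of factors of words of `L` -/
def factors {A : Type} (L : Set (List A)) : Set (List A) := {u | ∃ x y, x ++ u ++ y ∈ L}

/-- `N` is a submonoid of the free monoid -/
def IsSubmon {A : Type} (N : Set (List A)) : Prop := [] ∈ N ∧ ∀ u ∈ N, ∀ v ∈ N, u ++ v ∈ N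

/-- `X` is the minimal generating set of `X*` -/
def MinGen {A : Type} (X : Set (List A)) : Prop :=
  [] ∉ X ∧ ∀ l : List (List A), (∀ x ∈ l, x ∈ X) → 2 ≤ l.length → l.flatten ∉ X

/-- `M` is a maximal submonoid in `L` -/
def MaximalIn {A : Type} (L M : Set (List A)) : Prop :=
  IsSubmon M ∧ M ⊆ L ∧ ∀ N, IsSubmon N → M ⊆ N → N ⊆ L → N = M

/-- `X` is a minimal factor generator -/
def MinFactorGen {A : Type} (X : Set (List A)) : Prop :=
  ∀ Y, Y ⊂ X → factors (star Y) ≠ factors (star X)

theorem star_nil {A : Type} (X : Set (List A)) : [] ∈ star X := ⟨[], by simp, rfl⟩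

theorem star_cons {A : Type} {X : Set (List A)} {x w : List A} (hx : x ∈ X) (hw : w ∈ star X) :
    x ++ w ∈ star X := by
  obtain ⟨l, hl, rfl⟩ := hw
  refine ⟨x :: l, ?_, by simp⟩
  intro y hy
  rcases List.mem_cons.mp hy with rfl | h
  · exact hx
  · exact hl y h

theorem star_of {A : Type} {X : Set (List A)} {x : List A} (hx : x ∈ X) : x ∈ star X := by
  simpa using star_cons hx (star_nil X)

theorem star_ind {A : Type} {X : Set (List A)} {P : List A → Prop} (h0 : P [])
    (h1 : ∀ x ∈ X, ∀ w, P w → P (x ++ w)) : ∀ w ∈ star X, P w := by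
  rintro w ⟨l, hl, rfl⟩
  induction l with
  | nil => exact h0
  | cons x l ih =>
    rw [List.flatten_cons]
    exact h1 x (hl x (by simp)) _ (ih fun y hy => hl y (by simp [hy]))

theorem star_append {A : Type} {X : Set (List A)} {u v : List A} (hu : u ∈ star X)
    (hv : v ∈ star X) : u ++ v ∈ star X := by
  revert u
  apply star_ind
  · simpa using hv
  · intro x hx w hw
    rw [List.append_assoc]
    exact star_cons hx hw

/-- `a = false`, `b = true` -/
def X0 : Set (List Bool) := {[true], [true, false], [true, false, false], [false, true],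
  [false, true, false], [false, true, false, false]}

def Y0 : Set (List Bool) := {[true], [true, false, false], [false, true],
  [false, true, false, false]}

/-- automaton reading a word with `c` pending letters `a`; fails on four consecutive `a` -/
def ok : ℕ → List Bool → Prop
  | _, [] => True
  | _, true :: w => ok 0 w
  | c, false :: w => c < 3 ∧ ok (c + 1) w

theorem ok_mono (w : List Bool) : ∀ c c', c' ≤ c → ok c w → ok c' w := by
  induction w with
  | nil => intros; trivial
  | cons x w ih =>
    intro c c' h
    cases x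
    · exact fun h' => ⟨by have := h'.1; omega, ih _ _ (by omega) h'.2⟩
    · exact id

theorem ok_left (u v : List Bool) : ∀ c, ok c (u ++ v) → ok c u := by
  induction u with
  | nil => intros; trivial
  | cons x w ih =>
    intro c
    cases x
    · exact fun h' => ⟨h'.1, ih _ h'.2⟩
    · exact ih 0

theorem ok_right (u v : List Bool) : ∀ c, ok c (u ++ v) → ok 0 v := by
  induction u with
  | nil => intro c h; exact ok_mono _ _ _ (Nat.zero_le c) h
  | cons x w ih =>
    intro c
    cases x
    · exact fun h' => ih _ h'.2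
    · exact ih 0

theorem star_ok : ∀ w ∈ star X0, ok 2 w := by
  apply star_ind
  · trivial
  · intro x hx w hw
    have h0 := ok_mono w 2 0 (by omega) hw
    have h1 := ok_mono w 2 1 (by omega) hw
    simp only [X0, Set.mem_insert_iff, Set.mem_singleton_iff] at hx
    rcases hx with rfl | rfl | rfl | rfl | rfl | rfl <;> simp [ok, h0, h1, hw]

theorem fac_ok (w : List Bool) (h : w ∈ factors (star X0)) : ok 0 w := by
  obtain ⟨x, y, h⟩ := h
  exact ok_right _ _ _ (ok_left _ _ _ (star_ok _ h))

theorem parse (n : ℕ) : ∀ w : List Bool, w.length ≤ n → ok 0 (true :: w ++ [false, true]) →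
    (true :: w) ∈ star X0 ∧ (false :: true :: w) ∈ star X0 := by
  induction n with
  | zero =>
    intro w hw _
    obtain rfl : w = [] := List.length_eq_zero_iff.mp (by omega)
    exact ⟨star_of (by simp [X0]), star_of (by simp [X0])⟩
  | succ n ih =>
    intro w hw h
    have k : ∀ (p r : List Bool), (true :: p) ∈ X0 → (false :: true :: p) ∈ X0 → r ∈ star X0 →
        (true :: (p ++ r)) ∈ star X0 ∧ (false :: true :: (p ++ r)) ∈ star X0 :=
      fun p r h1 h2 hr => ⟨star_cons h1 hr, star_cons h2 hr⟩
    match w, hw, h with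
    | [], _, _ => exact k [] [] (by simp [X0]) (by simp [X0]) (star_nil _)
    | [false], _, _ => exact k [false] [] (by simp [X0]) (by simp [X0]) (star_nil _)
    | [false, false], _, _ => exact k [false, false] [] (by simp [X0]) (by simp [X0]) (star_nil _)
    | [false, false, false], _, h => simp [ok] at h
    | false :: false :: false :: false :: w, _, h => simp [ok] at h
    | true :: w, hw, h =>
      exact k [] _ (by simp [X0]) (by simp [X0])
        (ih w (by simp at hw; omega) (by simpa [ok] using h)).1
    | false :: true :: w, hw, h =>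
      exact k [] _ (by simp [X0]) (by simp [X0])
        (ih w (by simp at hw; omega) (by simpa [ok] using h)).2
    | false :: false :: true :: w, hw, h =>
      exact k [false, false] _ (by simp [X0]) (by simp [X0])
        (ih w (by simp at hw; omega) (by simpa [ok] using h)).1
    | false :: false :: false :: true :: w, hw, h =>
      exact k [false, false] _ (by simp [X0]) (by simp [X0])
        (ih w (by simp at hw; omega) (by simpa [ok] using h)).2

theorem maxim : MaximalIn (factors (star X0)) (star X0) := by
  refine ⟨⟨star_nil _, fun u hu v hv => star_append hu hv⟩, fun w hw => ⟨[], [], by simpa using hw⟩,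
    ?_⟩
  intro N hN h1 h2
  refine Set.Subset.antisymm (fun w hw => ?_) h1
  have e1 : [true, false, false] ∈ N := h1 (star_of (by simp [X0]))
  have e2 : [false, true] ∈ N := h1 (star_of (by simp [X0]))
  have k1 := fac_ok _ (h2 (hN.2 _ e1 _ (hN.2 _ hw _ e2)))
  have k2 := fac_ok _ (h2 (hN.2 _ hw _ (hN.2 _ hw _ (hN.2 _ hw _ (hN.2 _ hw _ hw)))))
  match w, k1, k2 with
  | [], _, _ => exact star_nil _
  | [false], _, k2 => simp [ok] at k2
  | false :: false :: w, k1, _ => simp [ok] at k1
  | true :: w, k1, _ => exact (parse _ w le_rfl (by simpa [ok] using k1)).1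
  | false :: true :: w, k1, _ => exact (parse _ w le_rfl (by simpa [ok] using k1)).2

theorem toY : ∀ w ∈ star X0, ∃ r, (true :: r) ∈ star Y0 ∧ (false :: true :: r) ∈ star Y0 ∧
    (w ++ [true] = true :: r ∨ w ++ [true] = false :: true :: r) := by
  apply star_ind
  · exact ⟨[], star_of (by simp [Y0]), star_of (by simp [Y0]), Or.inl rfl⟩
  · rintro x hx w ⟨r, h1, h2, h3⟩
    have k : ∀ (p r : List Bool), (true :: p) ∈ Y0 → (false :: true :: p) ∈ Y0 → r ∈ star Y0 →
        (true :: (p ++ r)) ∈ star Y0 ∧ (false :: true :: (p ++ r)) ∈ star Y0 :=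
      fun p r h1 h2 hr => ⟨star_cons h1 hr, star_cons h2 hr⟩
    have a1 := k [] _ (by simp [Y0]) (by simp [Y0]) h1
    have a2 := k [] _ (by simp [Y0]) (by simp [Y0]) h2
    have a3 := k [false, false] _ (by simp [Y0]) (by simp [Y0]) h1
    have a4 := k [false, false] _ (by simp [Y0]) (by simp [Y0]) h2
    simp only [X0, Set.mem_insert_iff, Set.mem_singleton_iff] at hx
    rcases hx with rfl | rfl | rfl | rfl | rfl | rfl <;> rcases h3 with h3 | h3 <;>
      rw [List.append_assoc, h3] <;>
      first
        | exact ⟨_, a1.1, a1.2, Or.inl rfl⟩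
        | exact ⟨_, a1.1, a1.2, Or.inr rfl⟩
        | exact ⟨_, a2.1, a2.2, Or.inl rfl⟩
        | exact ⟨_, a2.1, a2.2, Or.inr rfl⟩
        | exact ⟨_, a3.1, a3.2, Or.inl rfl⟩
        | exact ⟨_, a3.1, a3.2, Or.inr rfl⟩
        | exact ⟨_, a4.1, a4.2, Or.inl rfl⟩
        | exact ⟨_, a4.1, a4.2, Or.inr rfl⟩

theorem YX : Y0 ⊆ X0 := by
  intro x hx
  simp only [Y0, Set.mem_insert_iff, Set.mem_singleton_iff] at hx
  rcases hx with rfl | rfl | rfl | rfl <;> simp [X0]

/-- A (finite) set `X` that is the minimal generating set of `X*`, with `X*` maximal in `F(X*)`,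
which is not a minimal factor generator. -/
theorem result :
    ∃ (A : Type) (_ : Fintype A) (X : Set (List A)), X.Finite ∧ MinGen X ∧
      MaximalIn (factors (star X)) (star X) ∧ ¬ MinFactorGen X := by
  refine ⟨Bool, inferInstance, X0, by unfold X0; exact Set.toFinite _, ⟨by simp [X0], ?_⟩, maxim, ?_⟩
  · have c : ∀ x ∈ X0, x.count true = 1 := by
      intro x hx
      simp only [X0, Set.mem_insert_iff, Set.mem_singleton_iff] at hx
      rcases hx with rfl | rfl | rfl | rfl | rfl | rfl <;> rfl
    intro l hl h2 hf
    match l, hl, h2, hf with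
    | x :: y :: l, hl, _, hf =>
      have := c _ hf
      simp only [List.flatten_cons, List.count_append, c x (hl x (by simp)),
        c y (hl y (by simp))] at this
      omega
  · intro h
    apply h Y0 ⟨YX, fun h => by
      have : [true, false] ∈ Y0 := h (by simp [X0])
      simp [Y0] at this⟩
    ext u
    constructor
    · rintro ⟨x, y, l, hl, e⟩
      exact ⟨x, y, l, fun z hz => YX (hl z hz), e⟩
    · rintro ⟨x, y, hw⟩
      obtain ⟨r, h1, h2, h3⟩ := toY _ hw
      refine ⟨x, y ++ [true], ?_⟩
      rw [← List.append_assoc]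
      rcases h3 with h3 | h3 <;> rw [h3] <;> assumption

end Pool.Agent.Results.MP_51bcab_lc.NotMinimalGen
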